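import Pool.Agent.R37.FlagLin

set_option autoImplicit false

namespace Pool.Agent.Results.MP_33e66b_co.MapGraphCliqueCover

open Pool.Agent.R37

/-- `G` is a map graph on a closed connected surface of Euler genus at most `g`: some graph is
embedded in the surface (not necessarily cellularly; see `FlagMap` and `FlagMap.IsEmbedding`), the
vertices of `G` are some faces (the nations) of the embedding, and two of them are adjacent iff
they are distinct and have a common vertex. -/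
def IsMapGraph (g : ℕ) {W : Type} (G : SimpleGraph W) : Prop :=
  ∃ (Φ : Type) (_ : Finite Φ) (M : FlagMap Φ) (F : Type) (_ : Finite F) (φ : M.Fa → F),
    M.IsEmbedding φ g ∧ ∃ ν : W → F, Function.Injective ν ∧
      ∀ a b, G.Adj a b ↔
        a ≠ b ∧ ∃ x y : Φ, φ (M.fa x) = ν a ∧ φ (M.fa y) = ν b ∧ M.ve x = M.ve y

/-- The set `U` of vertices is the union of at most `k` cliques of `G`. -/
def CliqueCoverLE {W : Type} (G : SimpleGraph W) (U : Set W) (k : ℕ) : Prop :=
  ∃ Q : Finset (Set W), Q.card ≤ k ∧ (∀ q ∈ Q, G.IsClique q) ∧ ⋃₀ (Q : Set (Set W)) = U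

/-- The clique cover degeneracy of `G` is at most `k`: every nonnull induced subgraph (on `S`) has
a vertex whose neighbourhood in it is the union of at most `k` cliques. -/
def CliqueCoverDegeneracyLE {W : Type} (G : SimpleGraph W) (k : ℕ) : Prop :=
  ∀ S : Set W, S.Nonempty → ∃ v ∈ S, CliqueCoverLE G {a | a ∈ S ∧ G.Adj v a} k

/-- The combinatorial core: nonempty even subsets of `A` have weight at least `12`. -/
theorem weight_ge {C V F : Type} [DecidableEq C] [DecidableEq V] [DecidableEq F] (A : Finset C)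
    (cv : C → V) (cf : C → F) (w : C → ℕ)
    (hinj : ∀ c ∈ A, ∀ c' ∈ A, cv c = cv c' → cf c = cf c' → c = c')
    (hw : ∀ c, 2 ≤ w c)
    (hw3 : ∀ c1 ∈ A, ∀ c2 ∈ A, ∀ c3 ∈ A, ∀ c4 ∈ A, cv c1 = cv c2 → cf c1 ≠ cf c2 →
      cv c3 = cv c4 → cf c3 = cf c1 → cf c4 = cf c2 → cv c3 ≠ cv c1 → 3 ≤ w c1)
    (D : Finset C) (hD : D ⊆ A) (hne : D.Nonempty)
    (hev : ∀ v, Even (D.filter (fun c => cv c = v)).card)
    (hef : ∀ f, Even (D.filter (fun c => cf c = f)).card) : 12 ≤ ∑ c ∈ D, w c := by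
  classical
  have other : ∀ {s : Finset C} {a : C}, Even s.card → a ∈ s → ∃ b ∈ s, b ≠ a := by
    intro s a hs ha
    have h1 : 0 < s.card := Finset.card_pos.mpr ⟨a, ha⟩
    obtain ⟨r, hr⟩ := hs
    exact Finset.exists_mem_ne (by omega) a
  have hDeven : Even D.card := by
    have h := Finset.card_eq_sum_card_fiberwise (s := D) (t := D.image cv) (f := cv)
      (fun c hc => Finset.mem_coe.mpr (Finset.mem_image_of_mem _ hc))
    rw [h]
    exact Finset.even_sum _ (fun v _ => hev v)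
  by_cases h6 : 6 ≤ D.card
  · calc 12 = 6 * 2 := by norm_num
      _ ≤ D.card * 2 := Nat.mul_le_mul_right _ h6
      _ = ∑ _c ∈ D, 2 := by rw [Finset.sum_const, smul_eq_mul]
      _ ≤ _ := Finset.sum_le_sum (fun c _ => hw c)
  obtain ⟨c1, h1⟩ := hne
  obtain ⟨c2, h2, h21⟩ := other (hev (cv c1)) (Finset.mem_filter.mpr ⟨h1, rfl⟩)
  rw [Finset.mem_filter] at h2
  have hf12 : cf c1 ≠ cf c2 := fun h =>
    h21 (hinj c2 (hD h2.1) c1 (hD h1) h2.2 h.symm)
  obtain ⟨c3, h3, h31⟩ := other (hef (cf c1)) (Finset.mem_filter.mpr ⟨h1, rfl⟩)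
  rw [Finset.mem_filter] at h3
  obtain ⟨c4, h4, h42⟩ := other (hef (cf c2)) (Finset.mem_filter.mpr ⟨h2.1, rfl⟩)
  rw [Finset.mem_filter] at h4
  have hv3 : cv c3 ≠ cv c1 := fun h => h31 (hinj c3 (hD h3.1) c1 (hD h1) h h3.2)
  have hv4 : cv c4 ≠ cv c1 := fun h =>
    h42 (hinj c4 (hD h4.1) c2 (hD h2.1) (h.trans h2.2.symm) h4.2)
  have n12 : c1 ≠ c2 := h21.symm
  have n13 : c1 ≠ c3 := h31.symm
  have n14 : c1 ≠ c4 := fun h => hf12 (by rw [h]; exact h4.2)
  have n23 : c2 ≠ c3 := fun h => hf12 (by rw [h]; exact h3.2.symm)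
  have n24 : c2 ≠ c4 := h42.symm
  have n34 : c3 ≠ c4 := fun h => hf12 (by rw [← h3.2, h]; exact h4.2)
  have hsub : ({c1, c2, c3, c4} : Finset C) ⊆ D := by
    intro c hc
    simp only [Finset.mem_insert, Finset.mem_singleton] at hc
    rcases hc with rfl | rfl | rfl | rfl
    · exact h1
    · exact h2.1
    · exact h3.1
    · exact h4.1
  have hcard : ({c1, c2, c3, c4} : Finset C).card = 4 := by
    rw [Finset.card_insert_of_notMem, Finset.card_insert_of_notMem, Finset.card_pair n34]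
    · simp [n23, n24]
    · simp [n12, n13, n14]
  have hDeq : ({c1, c2, c3, c4} : Finset C) = D := by
    apply Finset.eq_of_subset_of_card_le hsub
    obtain ⟨r, hr⟩ := hDeven
    omega
  obtain ⟨c, hc, hc3⟩ := other (hev (cv c3)) (Finset.mem_filter.mpr ⟨h3.1, rfl⟩)
  rw [Finset.mem_filter, ← hDeq] at hc
  have hv34 : cv c3 = cv c4 := by
    have hc1 := hc.1
    simp only [Finset.mem_insert, Finset.mem_singleton] at hc1
    rcases hc1 with rfl | rfl | rfl | rfl
    · exact absurd hc.2.symm hv3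
    · exact absurd (hc.2.symm.trans h2.2) hv3
    · exact absurd rfl hc3
    · exact hc.2.symm
  have w1 := hw3 c1 (hD h1) c2 (hD h2.1) c3 (hD h3.1) c4 (hD h4.1) h2.2.symm hf12 hv34 h3.2
    h4.2 hv3
  have w2 := hw3 c2 (hD h2.1) c1 (hD h1) c4 (hD h4.1) c3 (hD h3.1) h2.2 hf12.symm hv34.symm h4.2
    h3.2 (by rw [h2.2]; exact hv4)
  have w3 := hw3 c3 (hD h3.1) c4 (hD h4.1) c1 (hD h1) c2 (hD h2.1) hv34
    (by rw [h3.2, h4.2]; exact hf12) h2.2.symm h3.2.symm h4.2.symm hv3.symm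
  have w4 := hw3 c4 (hD h4.1) c3 (hD h3.1) c2 (hD h2.1) c1 (hD h1) hv34.symm
    (by rw [h3.2, h4.2]; exact hf12.symm) h2.2 h4.2.symm h3.2.symm
    (by rw [h2.2]; exact hv4.symm)
  rw [← hDeq, Finset.sum_insert, Finset.sum_insert, Finset.sum_pair n34]
  · omega
  · simp [n23, n24]
  · simp [n12, n13, n14]

/-- **Main result.** Map graphs on surfaces of Euler genus at most `g` have clique cover
degeneracy at most `k`, for every `k ≥ 5` with `6 g < (k - 5) (k + 2)`; in particular the clique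
cover degeneracy of `g`-map graphs is bounded by a function of `g`. -/
theorem result (g k : ℕ) (hk5 : 5 ≤ k) (hk : 6 * g < (k - 5) * (k + 2)) {W : Type}
    (G : SimpleGraph W) (hG : IsMapGraph g G) : CliqueCoverDegeneracyLE G k := by
  classical
  obtain ⟨Φ, hΦ, M, F, hF, φ, hE, ν, hν, hadj⟩ := hG
  have := Fintype.ofFinite Φ
  have := Fintype.ofFinite F
  have : Finite W := Finite.of_injective ν hν
  have := Fintype.ofFinite W
  intro S hS
  obtain ⟨v0, hv0⟩ := hS
  obtain ⟨f0, -⟩ := hE.surj (ν v0)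
  obtain ⟨x0, -⟩ : ∃ x, M.fa x = f0 := Quotient.exists_rep _
  have : Nonempty Φ := ⟨x0⟩
  obtain ⟨inc, hinc⟩ : ∃ inc : W → M.Ve → Prop,
    ∀ a p, inc a p ↔ ∃ x, φ (M.fa x) = ν a ∧ M.ve x = p :=
    ⟨fun a p => ∃ x, φ (M.fa x) = ν a ∧ M.ve x = p, fun _ _ => Iff.rfl⟩
  have hadj' : ∀ a b, G.Adj a b ↔ a ≠ b ∧ ∃ p, inc a p ∧ inc b p := by
    intro a b
    rw [hadj]
    constructor
    · rintro ⟨h1, x, y, hx, hy, hxy⟩
      exact ⟨h1, M.ve x, (hinc _ _).mpr ⟨x, hx, rfl⟩, (hinc _ _).mpr ⟨y, hy, hxy.symm⟩⟩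
    · rintro ⟨h1, p, ha, hb⟩
      obtain ⟨x, hx, hx'⟩ := (hinc _ _).mp ha
      obtain ⟨y, hy, hy'⟩ := (hinc _ _).mp hb
      exact ⟨h1, x, y, hx, hy, hx'.trans hy'.symm⟩
  obtain ⟨Sf, hSf⟩ : ∃ Sf : Finset W, ∀ a, a ∈ Sf ↔ a ∈ S := ⟨Finset.univ.filter (· ∈ S), by simp⟩
  -- a minimal set of points realising all adjacencies
  obtain ⟨P, hPgood, hPmin⟩ := Finset.exists_min_image
    (Finset.univ.filter (fun P : Finset M.Ve => ∀ a ∈ Sf, ∀ b ∈ Sf, G.Adj a b →
      ∃ p ∈ P, inc a p ∧ inc b p)) Finset.card ⟨Finset.univ, by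
      simp only [Finset.mem_filter, Finset.mem_univ, true_and]
      intro a _ b _ hab
      exact ((hadj' a b).mp hab).2⟩
  simp only [Finset.mem_filter, Finset.mem_univ, true_and] at hPgood hPmin
  have hess : ∀ p ∈ P, ∃ a ∈ Sf, ∃ b ∈ Sf, a ≠ b ∧ inc a p ∧ inc b p ∧
      ∀ q ∈ P, q ≠ p → inc a q → inc b q → False := by
    intro p hp
    by_contra hcon
    have h1 : ∀ a ∈ Sf, ∀ b ∈ Sf, G.Adj a b → ∃ q ∈ P.erase p, inc a q ∧ inc b q := by
      intro a ha b hb hab
      by_contra hno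
      apply hcon
      obtain ⟨p', hp', h2, h3⟩ := hPgood a ha b hb hab
      have hpp : p' = p := by
        by_contra hne
        exact hno ⟨p', Finset.mem_erase.mpr ⟨hne, hp'⟩, h2, h3⟩
      subst hpp
      exact ⟨a, ha, b, hb, ((hadj' a b).mp hab).1, h2, h3, fun q hq hqp h4 h5 =>
        hno ⟨q, Finset.mem_erase.mpr ⟨hqp, hq⟩, h4, h5⟩⟩
    have h2 := hPmin _ h1
    have h3 := Finset.card_erase_lt_of_mem hp
    omega
  -- one corner for each incidence
  have hch : ∀ a p, inc a p → ∃ x, φ (M.fa x) = ν a ∧ M.ve x = p := fun a p h => (hinc a p).mp h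
  choose! fl hfl using hch
  obtain ⟨I, hI⟩ : ∃ I : Finset (W × M.Ve), I = (Sf ×ˢ P).filter (fun q => inc q.1 q.2) :=
    ⟨_, rfl⟩
  have hmemI : ∀ q, q ∈ I ↔ (q.1 ∈ Sf ∧ q.2 ∈ P) ∧ inc q.1 q.2 := by
    intro q; rw [hI, Finset.mem_filter, Finset.mem_product]
  obtain ⟨A, hA⟩ : ∃ A : Finset M.Co, A = I.image (fun q => M.co (fl q.1 q.2)) := ⟨_, rfl⟩
  have hcvfl : ∀ q ∈ I, M.cv (M.co (fl q.1 q.2)) = q.2 := fun q hq =>
    (hfl _ _ ((hmemI q).mp hq).2).2
  have hcffl : ∀ q ∈ I, M.cff φ (M.co (fl q.1 q.2)) = ν q.1 := fun q hq =>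
    (hfl _ _ ((hmemI q).mp hq).2).1
  have hmemA : ∀ c, c ∈ A ↔ ∃ q ∈ I, M.co (fl q.1 q.2) = c := by
    intro c; rw [hA, Finset.mem_image]
  have hinjI : ∀ q ∈ I, ∀ q' ∈ I, M.co (fl q.1 q.2) = M.co (fl q'.1 q'.2) → q = q' := by
    intro q hq q' hq' h
    apply Prod.ext
    · apply hν
      rw [← hcffl q hq, ← hcffl q' hq', h]
    · rw [← hcvfl q hq, ← hcvfl q' hq', h]
  have hcardA : A.card = I.card := by
    rw [hA]
    exact Finset.card_image_of_injOn (fun q hq q' hq' h => hinjI q hq q' hq' h)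
  have hA1 : ∀ c ∈ A, ∀ a, M.cff φ c = ν a → inc a (M.cv c) ∧ M.cv c ∈ P ∧ a ∈ Sf := by
    intro c hc a ha
    obtain ⟨q, hq, rfl⟩ := (hmemA c).mp hc
    rw [hcffl q hq] at ha
    have := hν ha
    subst this
    rw [hcvfl q hq]
    exact ⟨((hmemI q).mp hq).2, ((hmemI q).mp hq).1.2, ((hmemI q).mp hq).1.1⟩
  have hA1' : ∀ c ∈ A, ∃ a, M.cff φ c = ν a := by
    intro c hc
    obtain ⟨q, hq, rfl⟩ := (hmemA c).mp hc
    exact ⟨q.1, hcffl q hq⟩
  have hA2 : ∀ a ∈ Sf, ∀ p ∈ P, inc a p → ∃ c ∈ A, M.cff φ c = ν a ∧ M.cv c = p := by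
    intro a ha p hp hap
    have hq : (a, p) ∈ I := (hmemI _).mpr ⟨⟨ha, hp⟩, hap⟩
    exact ⟨_, (hmemA _).mpr ⟨_, hq, rfl⟩, hcffl _ hq, hcvfl _ hq⟩
  have hinjA : ∀ c ∈ A, ∀ c' ∈ A, M.cv c = M.cv c' → M.cff φ c = M.cff φ c' → c = c' := by
    intro c hc c' hc' h1 h2
    obtain ⟨q, hq, rfl⟩ := (hmemA c).mp hc
    obtain ⟨q', hq', rfl⟩ := (hmemA c').mp hc'
    rw [hcvfl q hq, hcvfl q' hq'] at h1
    rw [hcffl q hq, hcffl q' hq'] at h2
    have : q = q' := Prod.ext (hν h2) h1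
    rw [this]
  have hPA : ∀ c ∈ A, M.cv c ∈ P := by
    intro c hc
    obtain ⟨a, ha⟩ := hA1' c hc
    exact (hA1 c hc a ha).2.1
  have hSA : ∀ c ∈ A, M.cff φ c ∈ Sf.image ν := by
    intro c hc
    obtain ⟨a, ha⟩ := hA1' c hc
    rw [ha]
    exact Finset.mem_image_of_mem _ (hA1 c hc a ha).2.2
  have hdeg2 : ∀ p ∈ P, 2 ≤ (A.filter (fun c => M.cv c = p)).card := by
    intro p hp
    obtain ⟨a, ha, b, hb, hab, hap, hbp, -⟩ := hess p hp
    obtain ⟨ca, hca, hca1, hca2⟩ := hA2 a ha p hp hap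
    obtain ⟨cb, hcb, hcb1, hcb2⟩ := hA2 b hb p hp hbp
    have hne : ca ≠ cb := by
      rintro rfl
      exact hab (hν (hca1.symm.trans hcb1))
    calc 2 = ({ca, cb} : Finset M.Co).card := (Finset.card_pair hne).symm
      _ ≤ _ := Finset.card_le_card (by
        intro c hc
        simp only [Finset.mem_insert, Finset.mem_singleton] at hc
        rw [Finset.mem_filter]
        rcases hc with rfl | rfl
        · exact ⟨hca, hca2⟩
        · exact ⟨hcb, hcb2⟩)
  obtain ⟨w, hw⟩ : ∃ w : M.Co → ℕ, ∀ c, w c =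
    if (A.filter (fun c' => M.cv c' = M.cv c)).card = 2 then 2 else 3 := ⟨_, fun _ => rfl⟩
  have heuler := M.weighted_euler φ hE A P (Sf.image ν) hPA hSA 12 w (by
    intro D hD hne hev hef
    apply weight_ge A M.cv (M.cff φ) w hinjA _ _ D hD hne hev hef
    · intro c
      rw [hw]
      split_ifs <;> omega
    · intro c1 h1 c2 h2 c3 h3 c4 h4 e12 f12 e34 f31 f42 e31
      rw [hw]
      split_ifs with hc
      · exfalso
        have hpP := hPA c1 h1
        obtain ⟨a, ha, b, hb, hab, hap, hbp, hno⟩ := hess _ hpP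
        obtain ⟨ca, hca, hca1, hca2⟩ := hA2 a ha _ hpP hap
        obtain ⟨cb, hcb, hcb1, hcb2⟩ := hA2 b hb _ hpP hbp
        have hset : ({c1, c2} : Finset M.Co) = A.filter (fun c' => M.cv c' = M.cv c1) := by
          apply Finset.eq_of_subset_of_card_le
          · intro c hc
            simp only [Finset.mem_insert, Finset.mem_singleton] at hc
            rw [Finset.mem_filter]
            rcases hc with rfl | rfl
            · exact ⟨h1, rfl⟩
            · exact ⟨h2, e12.symm⟩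
          · rw [hc, Finset.card_pair (by rintro rfl; exact f12 rfl)]
        have hca' : ca ∈ ({c1, c2} : Finset M.Co) := by
          rw [hset, Finset.mem_filter]; exact ⟨hca, hca2⟩
        have hcb' : cb ∈ ({c1, c2} : Finset M.Co) := by
          rw [hset, Finset.mem_filter]; exact ⟨hcb, hcb2⟩
        have hne : ca ≠ cb := by
          rintro rfl
          exact hab (hν (hca1.symm.trans hcb1))
        simp only [Finset.mem_insert, Finset.mem_singleton] at hca' hcb'
        rcases hca' with rfl | rfl <;> rcases hcb' with rfl | rfl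
        · exact hne rfl
        · have g1 := hA1 c3 h3 a (f31.trans hca1)
          have g2 := hA1 c4 h4 b (f42.trans hcb1)
          rw [← e34] at g2
          exact hno _ g1.2.1 e31 g1.1 g2.1
        · have g1 := hA1 c3 h3 b (f31.trans hcb1)
          have g2 := hA1 c4 h4 a (f42.trans hca1)
          rw [← e34] at g2
          exact hno _ g1.2.1 e31 g2.1 g1.1
        · exact hne rfl
      · exact le_rfl)
  rw [Finset.card_image_of_injective _ hν] at heuler
  -- summing over points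
  have hsumA : A.card = ∑ p ∈ P, (A.filter (fun c => M.cv c = p)).card :=
    Finset.card_eq_sum_card_fiberwise (fun c hc => hPA c hc)
  have hsumw : ∑ c ∈ A, w c = ∑ p ∈ P, ∑ c ∈ A.filter (fun c => M.cv c = p), w c :=
    (Finset.sum_fiberwise_of_maps_to (fun c hc => hPA c hc) w).symm
  have hpt : ∀ p ∈ P, 2 * ∑ c ∈ A.filter (fun c => M.cv c = p), w c + 12 ≤
      10 * (A.filter (fun c => M.cv c = p)).card := by
    intro p hp
    have h1 : ∑ c ∈ A.filter (fun c => M.cv c = p), w c =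
        (A.filter (fun c => M.cv c = p)).card *
          (if (A.filter (fun c => M.cv c = p)).card = 2 then 2 else 3) := by
      rw [← smul_eq_mul, ← Finset.sum_const]
      apply Finset.sum_congr rfl
      intro c hc
      rw [hw, (Finset.mem_filter.mp hc).2]
    rw [h1]
    have h2 := hdeg2 p hp
    split_ifs with h3
    · rw [h3]
    · omega
  have hsum := Finset.sum_le_sum hpt
  rw [Finset.sum_add_distrib, ← Finset.mul_sum, ← Finset.mul_sum, ← hsumw, ← hsumA,
    Finset.sum_const, smul_eq_mul] at hsum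
  have hmain : A.card ≤ 6 * Sf.card + 6 * g := by
    have h1 : 12 * (P.card + Sf.card + g) = 12 * P.card + 12 * Sf.card + 12 * g := by ring
    rw [h1] at heuler
    omega
  -- conclusion
  have hsumI : I.card = ∑ a ∈ Sf, (P.filter (fun p => inc a p)).card := by
    rw [hI, Finset.card_filter, Finset.sum_product]
    apply Finset.sum_congr rfl
    intro a _
    rw [Finset.card_filter]
  by_cases hsmall : Sf.card ≤ k + 1
  · refine ⟨v0, hv0, (Sf.filter (fun b => G.Adj v0 b)).image (fun b => ({b} : Set W)), ?_, ?_, ?_⟩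
    · refine Finset.card_image_le.trans ?_
      have h1 : Sf.filter (fun b => G.Adj v0 b) ⊆ Sf.erase v0 := by
        intro b hb
        rw [Finset.mem_filter] at hb
        exact Finset.mem_erase.mpr ⟨hb.2.ne', hb.1⟩
      have h2 := Finset.card_le_card h1
      rw [Finset.card_erase_of_mem ((hSf v0).mpr hv0)] at h2
      omega
    · intro q hq
      obtain ⟨b, -, rfl⟩ := Finset.mem_image.mp hq
      exact SimpleGraph.isClique_singleton b
    · ext b
      simp only [Set.mem_sUnion, Finset.mem_coe, Finset.mem_image, Finset.mem_filter,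
        Set.mem_ofPred_eq]
      constructor
      · rintro ⟨q, ⟨c, ⟨h1, h2⟩, rfl⟩, h3⟩
        rw [Set.mem_singleton_iff] at h3
        subst h3
        exact ⟨(hSf _).mp h1, h2⟩
      · rintro ⟨h1, h2⟩
        exact ⟨{b}, ⟨b, ⟨(hSf _).mpr h1, h2⟩, rfl⟩, rfl⟩
  · by_cases hex : ∃ a ∈ Sf, (P.filter (fun p => inc a p)).card ≤ k
    · obtain ⟨a, ha, hak⟩ := hex
      refine ⟨a, (hSf a).mp ha, (P.filter (fun p => inc a p)).image
        (fun p => {b | b ∈ S ∧ G.Adj a b ∧ inc b p}), Finset.card_image_le.trans hak, ?_, ?_⟩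
      · intro q hq
        obtain ⟨p, -, rfl⟩ := Finset.mem_image.mp hq
        intro b hb c hc hbc
        exact (hadj' b c).mpr ⟨hbc, p, hb.2.2, hc.2.2⟩
      · ext b
        simp only [Set.mem_sUnion, Finset.mem_coe, Finset.mem_image, Finset.mem_filter,
          Set.mem_ofPred_eq]
        constructor
        · rintro ⟨q, ⟨p, -, rfl⟩, h3⟩
          exact ⟨h3.1, h3.2.1⟩
        · rintro ⟨h1, h2⟩
          obtain ⟨p, hp, hap, hbp⟩ := hPgood a ha b ((hSf b).mpr h1) h2
          exact ⟨_, ⟨p, ⟨hp, hap⟩, rfl⟩, h1, h2, hbp⟩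
    · exfalso
      push Not at hex
      have h1 : (k + 1) * Sf.card ≤ A.card := by
        rw [hcardA, hsumI, mul_comm, ← smul_eq_mul, ← Finset.sum_const]
        apply Finset.sum_le_sum
        intro a ha
        exact hex a ha
      have h2 : (k + 1) * Sf.card ≤ 6 * Sf.card + 6 * g := h1.trans hmain
      obtain ⟨j, rfl⟩ : ∃ j, k = j + 5 := ⟨k - 5, by omega⟩
      have h3 : j + 5 + 2 ≤ Sf.card := by omega
      have h4 : j * (j + 5 + 2) ≤ j * Sf.card := Nat.mul_le_mul_left _ h3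
      have h5 : (j + 5 + 1) * Sf.card = j * Sf.card + 6 * Sf.card := by ring
      have h6 : j + 5 - 5 = j := by omega
      rw [h6] at hk
      omega

end Pool.Agent.Results.MP_33e66b_co.MapGraphCliqueCover
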